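import Pool.Agent.Helper88.GM.Goals
import Pool.Agent.Helper88.PP.Mo
import Pool.Agent.Helper37.PP.HM

/-! # Packet MO of project GM: almost all integers are close to a long interval without primes -/

set_option autoImplicit false

open Finset Filter Topology

open scoped Classical

namespace Pool.Agent.Helper11.GM

open Pool.Agent.Helper88.PP (pr Rg om Sf SS uu vv ee LA VV QQ cost nc dd NN XX Pw Pw_sub Pw_disj
  bad_classes point_exists root_exists QQ_pos XX_nonneg QQ_mul_XX om_nonneg)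
open Pool.Agent.Helper88.GM

/-- the sizes of the parameters -/
theorem sizes {D l lam : ℝ} (hD : 3 ≤ D) (hl : 900 ≤ l) (h3 : 1 ≤ Real.log (Real.log l))
    (hw3 : 3 ≤ Real.exp (Real.log l / 8)) (hw : Real.log l ≤ Real.exp (Real.log l / 8))
    (hlam1 : Real.log (Real.log l) ≤ lam) (hlam2 : 8 * D * lam ≤ Real.log l)
    {E H T : ℕ} (hE : E = ⌈Real.exp (D * lam)⌉₊) (hH : H = ⌈lam * l⌉₊)
    (hT : T = 2 * ⌈Real.exp ((E : ℝ) ^ 2)⌉₊) :
    1 ≤ lam ∧ 1 ≤ E ∧ Real.log l ^ 3 ≤ E ∧ D * lam ≤ Real.log E ∧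
      l ≤ H ∧ (H : ℝ) ≤ 2 * lam * l ∧ (H : ℝ) ≤ l ^ 2 ∧
      (E : ℝ) * Real.log ((T * H : ℕ) : ℝ) ≤ l ∧
      ((T * H : ℕ) : ℝ) ≤ Real.exp (Real.exp (8 * D * lam)) := by
  have hlam : 1 ≤ lam := h3.trans hlam1
  have hl0 : 0 < l := by linarith
  set ll := Real.log l with hll
  have hll0 : 0 < ll := by
    have : 0 < 8 * D * lam := by positivity
    linarith
  set v := Real.exp (D * lam) with hv
  have hDl : 3 ≤ D * lam := by nlinarith only [hD, hlam]
  have hv4 : 4 ≤ v := by
    have := Real.add_one_le_exp (D * lam)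
    linarith only [hDl, this]
  have hEv : v ≤ E := by rw [hE]; exact Nat.le_ceil _
  have hEv2 : (E : ℝ) ≤ 2 * v := by
    have h1 : (E : ℝ) < v + 1 := by rw [hE]; exact Nat.ceil_lt_add_one (by positivity)
    linarith only [hv4, h1]
  have hEpos : (0 : ℝ) < E := by linarith only [hv4, hEv]
  have hE1 : 1 ≤ E := by exact_mod_cast (Nat.cast_pos.1 hEpos)
  have hlE : D * lam ≤ Real.log E := by
    rw [Real.le_log_iff_exp_le hEpos]
    exact hEv
  have hlllv : ll ≤ Real.exp lam := by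
    rw [← Real.log_le_iff_le_exp hll0]
    exact hlam1
  have hE3 : ll ^ 3 ≤ E := by
    refine le_trans ?_ hEv
    calc ll ^ 3 ≤ Real.exp lam ^ 3 := pow_le_pow_left₀ hll0.le hlllv 3
      _ = Real.exp (3 * lam) := by rw [← Real.exp_nat_mul]; norm_num
      _ ≤ v := Real.exp_le_exp.2 (by nlinarith only [hD, hlam])
  have hllv : ll ≤ v := hlllv.trans (Real.exp_le_exp.2 (by nlinarith only [hD, hDl, hlam]))
  -- H
  have hH1 : lam * l ≤ H := by rw [hH]; exact Nat.le_ceil _
  have hH2 : (H : ℝ) < lam * l + 1 := by rw [hH]; exact Nat.ceil_lt_add_one (by positivity)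
  have hlamll : 24 * lam ≤ ll := by nlinarith only [hD, hlam2, hlam]
  have hlH : l ≤ H := by nlinarith only [hlam, hH1, hl]
  have hH3 : (H : ℝ) ≤ 2 * lam * l := by nlinarith only [hl, hH2, hlH]
  have hlll : ll ≤ l := by
    have := Real.log_le_sub_one_of_pos hl0
    linarith only [this]
  have hH4 : (H : ℝ) ≤ l ^ 2 := by nlinarith only [hl, hlam, hlam2, hH2, hlll, hD]
  have hHpos : (0 : ℝ) < H := by linarith only [hl, hlH]
  -- T
  set e2 := Real.exp ((E : ℝ) ^ 2) with he2
  have he21 : 1 ≤ e2 := Real.one_le_exp (by positivity)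
  have hT1 : (T : ℝ) ≤ 4 * e2 := by
    rw [hT]
    push_cast
    have := Nat.ceil_lt_add_one (zero_le_one.trans he21)
    linarith only [he21, this]
  have hT0 : (0 : ℝ) < T := by
    rw [hT]
    push_cast
    have := Nat.le_ceil e2
    linarith only [he21, this]
  have hlogT : Real.log T ≤ (E : ℝ) ^ 2 + 3 := by
    calc Real.log T ≤ Real.log (4 * e2) := Real.log_le_log hT0 hT1
      _ = Real.log 4 + (E : ℝ) ^ 2 := by
          rw [Real.log_mul (by norm_num) (by positivity), he2, Real.log_exp]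
      _ ≤ _ := by
          have : Real.log 4 ≤ 4 - 1 := Real.log_le_sub_one_of_pos (by norm_num)
          linarith only [this]
  have hlogH : Real.log H ≤ 2 * ll := by
    calc Real.log H ≤ Real.log (l ^ 2) := Real.log_le_log hHpos hH4
      _ = 2 * ll := by rw [Real.log_pow, ← hll]; norm_num
  have hlogTH : Real.log ((T * H : ℕ) : ℝ) ≤ (E : ℝ) ^ 2 + 3 + 2 * ll := by
    push_cast
    rw [Real.log_mul hT0.ne' hHpos.ne']
    linarith only [hlogT, hlogH]
  have hTHpos : (0 : ℝ) < ((T * H : ℕ) : ℝ) := by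
    push_cast
    positivity
  refine ⟨hlam, hE1, hE3, hlE, hlH, hH3, hH4, ?_, ?_⟩
  · -- `w = l^(1/8)`
    set w := Real.exp (ll / 8) with hwdef
    have hw8 : w ^ 8 = l := by
      rw [hwdef, ← Real.exp_nat_mul]
      have : ((8 : ℕ) : ℝ) * (ll / 8) = ll := by push_cast; ring
      rw [this, hll, Real.exp_log hl0]
    have hvw : v ≤ w := Real.exp_le_exp.2 (by linarith only [hlam2])
    have hEw : (E : ℝ) ≤ 2 * w := by linarith only [hEv2, hvw]
    have h1 : (E : ℝ) ^ 2 + 3 + 2 * ll ≤ 4 * w ^ 2 + 3 + 2 * w := by nlinarith only [hw, hvw, hEv2, hv4, hw3]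
    have h2 : 4 * w ^ 2 + 3 + 2 * w ≤ 5 * w ^ 2 := by nlinarith only [hw3]
    calc (E : ℝ) * Real.log ((T * H : ℕ) : ℝ) ≤ E * (5 * w ^ 2) :=
          mul_le_mul_of_nonneg_left (hlogTH.trans (h1.trans h2)) hEpos.le
      _ ≤ (2 * w) * (5 * w ^ 2) := mul_le_mul_of_nonneg_right hEw (by positivity)
      _ = 10 * w ^ 3 := by ring
      _ ≤ w ^ 5 * w ^ 3 := by
          apply mul_le_mul_of_nonneg_right _ (by positivity)
          calc (10 : ℝ) ≤ 3 ^ 5 := by norm_num
            _ ≤ w ^ 5 := pow_le_pow_left₀ (by norm_num) hw3 5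
      _ = l := by rw [← hw8]; ring
  · rw [← Real.log_le_iff_le_exp hTHpos]
    refine hlogTH.trans ?_
    have h8 : Real.exp (8 * D * lam) = v ^ 8 := by
      rw [hv, ← Real.exp_nat_mul]
      congr 1
      push_cast
      ring
    rw [h8]
    have h1 : (E : ℝ) ^ 2 + 3 + 2 * ll ≤ 5 * v ^ 2 := by nlinarith only [hlam2, hDl, hEv, hllv, hEv2, hv4]
    refine h1.trans ?_
    calc 5 * v ^ 2 ≤ v ^ 6 * v ^ 2 := by
          apply mul_le_mul_of_nonneg_right _ (by positivity)
          calc (5 : ℝ) ≤ 4 ^ 6 := by norm_num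
            _ ≤ v ^ 6 := pow_le_pow_left₀ (by norm_num) hv4 6
      _ = v ^ 8 := by ring

/-- uniform bound for the mean number of points of a window -/
theorem mu_unif : ∃ CM : ℝ, 0 < CM ∧ ∀ (E z x H : ℕ) (lam : ℝ), 1 ≤ lam → 1 ≤ E →
    900 ≤ Real.log x → x < (z + 1) ^ E → H ≤ z → 2 ≤ H → (H : ℝ) ≤ 2 * lam * Real.log x →
    (H : ℝ) ≤ Real.log x ^ 2 →
    (H : ℝ) * ((Nat.totient (QQ x) : ℝ) / QQ x) * om H z ≤ CM * lam * E := by
  obtain ⟨C1, hC1, hMP⟩ := Pool.Agent.Helper37.PP.mp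
  refine ⟨8 * C1 ^ 2, by positivity, ?_⟩
  intro E z x H lam hlam hE hl hxz hHz hH2 hHl hHl2
  set l := Real.log x with hldef
  have hl0 : 0 < l := by linarith
  have hE' : (1 : ℝ) ≤ E := by exact_mod_cast hE
  have hH2' : (2 : ℝ) ≤ H := by exact_mod_cast hH2
  have hz2 : 2 ≤ z := hH2.trans hHz
  have hz2' : (2 : ℝ) ≤ z := by exact_mod_cast hz2
  have hlogz0 : 0 < Real.log z := Real.log_pos (by linarith only [hz2'])
  have hx0 : (0 : ℝ) < x := by
    by_contra hcon
    have h3 : (x : ℝ) = 0 := le_antisymm (not_lt.1 hcon) (Nat.cast_nonneg _)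
    rw [hldef, h3, Real.log_zero] at hl
    linarith only [hl]
  have hll0 : 0 < Real.log l := Real.log_pos (by linarith only [hl])
  have hlz : l ≤ 2 * E * Real.log z := by
    have h1 : (x : ℝ) ≤ (z + 1 : ℝ) ^ E := by exact_mod_cast hxz.le
    have h2 : Real.log x ≤ Real.log ((z + 1 : ℝ) ^ E) := Real.log_le_log hx0 h1
    rw [Real.log_pow] at h2
    have h3 : Real.log (z + 1 : ℝ) ≤ 2 * Real.log z := by
      rw [← Nat.cast_ofNat (R := ℝ) (n := 2), ← Real.log_pow]
      refine Real.log_le_log (by positivity) ?_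
      nlinarith only [hz2']
    nlinarith only [h2, h3]
  have hlogH : Real.log H ≤ 2 * Real.log l := by
    calc Real.log H ≤ Real.log (l ^ 2) := Real.log_le_log (by linarith only [hH2']) hHl2
      _ = 2 * Real.log l := by rw [Real.log_pow]; norm_num
  have hom : om H z ≤ C1 * (4 * E * Real.log l / l) := by
    refine (hMP H z hH2 hHz).trans (mul_le_mul_of_nonneg_left ?_ hC1.le)
    rw [div_le_div_iff₀ hlogz0 hl0]
    have hlH0 : 0 ≤ Real.log (H : ℝ) := Real.log_nonneg (by linarith only [hH2'])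
    calc Real.log H * l ≤ (2 * Real.log l) * (2 * E * Real.log z) := by
          apply mul_le_mul hlogH hlz hl0.le (by positivity)
      _ = _ := by ring
  have hom0 : 0 ≤ om H z := om_nonneg _ _
  -- the totient
  set y : ℕ := ⌊l / 20⌋₊ with hy
  have hsq : (30 : ℝ) ≤ Real.sqrt l := by
    refine Real.le_sqrt_of_sq_le ?_
    linarith only [hl]
  have hy1 : Real.sqrt l ≤ y := by
    have h1 : l / 20 < y + 1 := Nat.lt_floor_add_one _
    have h2 : Real.sqrt l ≤ l / 30 := by
      rw [Real.sqrt_le_left (by linarith only [hl])]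
      nlinarith only [hl]
    linarith only [hl, h1, h2]
  have hy2 : 2 ≤ y := by
    have : (2 : ℝ) ≤ y := by linarith only [hsq, hy1]
    exact_mod_cast this
  have hlogy : Real.log l / 2 ≤ Real.log y := by
    rw [← Real.log_sqrt hl0.le]
    exact Real.log_le_log (by linarith only [hsq]) hy1
  have htot : (Nat.totient (QQ x) : ℝ) / QQ x ≤ C1 / Real.log l := by
    unfold QQ
    rw [← hldef, ← hy, Pool.Agent.Helper37.PP.totient_primorial y hy2]
    have h1 := hMP 2 y le_rfl hy2
    have h2 : Real.log ((2 : ℕ) : ℝ) / Real.log y ≤ 2 / Real.log l := by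
      rw [div_le_div_iff₀ (by linarith only [hll0, hlogy]) hll0]
      have h3 : Real.log ((2 : ℕ) : ℝ) ≤ 1 := by
        rw [Nat.cast_ofNat]
        linarith only [Real.log_two_lt_d9]
      have h4 := mul_le_mul_of_nonneg_right h3 hll0.le
      linarith only [hlogy, h4]
    calc _ ≤ (1 / 2) * (C1 * (2 / Real.log l)) := by
          refine mul_le_mul_of_nonneg_left ?_ (by norm_num)
          exact h1.trans (mul_le_mul_of_nonneg_left h2 hC1.le)
      _ = _ := by ring
  have htot0 : 0 ≤ (Nat.totient (QQ x) : ℝ) / QQ x := by positivity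
  calc (H : ℝ) * ((Nat.totient (QQ x) : ℝ) / QQ x) * om H z
      ≤ (2 * lam * l) * (C1 / Real.log l) * (C1 * (4 * E * Real.log l / l)) := by
        refine mul_le_mul ?_ hom hom0 (by positivity)
        exact mul_le_mul hHl htot htot0 (by positivity)
    _ = 8 * C1 ^ 2 * lam * E := by
        field_simp
        ring

/-- the number of integers of a class in an interval -/
theorem card_NI (u v Q b : ℕ) (hQ : 0 < Q) (huv : u ≤ v) (h2 : 2 * Q ≤ v - u) :
    ((NI u v Q b).card : ℝ) ≤ 2 * XI u v Q := by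
  have hQR : (0 : ℝ) < Q := by exact_mod_cast hQ
  have hcard : (NI u v Q b).card ≤ v / Q - u / Q + 1 := by
    have h1 : (NI u v Q b).card ≤ (Icc (u / Q) (v / Q)).card := by
      apply Finset.card_le_card_of_injOn (fun n => n / Q)
      · intro n hn
        have hn' := mem_filter.1 hn
        have hn1 := mem_Ioc.1 hn'.1
        simp only [coe_Icc, Set.mem_Icc]
        exact ⟨Nat.div_le_div_right hn1.1.le, Nat.div_le_div_right hn1.2⟩
      · intro n hn m hm hnm
        have hn' := (mem_filter.1 hn).2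
        have hm' := (mem_filter.1 hm).2
        simp only at hnm
        rw [← Nat.div_add_mod n Q, ← Nat.div_add_mod m Q, hn', hm', hnm]
    rw [Nat.card_Icc] at h1
    have h3 : u / Q ≤ v / Q := Nat.div_le_div_right huv
    omega
  have h3 : (((v / Q : ℕ) : ℝ)) ≤ v / Q := Nat.cast_div_le
  have h4 : (u : ℝ) / Q - 1 ≤ ((u / Q : ℕ) : ℝ) := by
    have h5 : (u : ℝ) < ((u / Q : ℕ) + 1 : ℝ) * Q := by
      have h6 : u < (u / Q + 1) * Q := by
        have := Nat.lt_div_mul_add hQ (a := u)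
        calc u < u / Q * Q + Q := this
          _ = (u / Q + 1) * Q := by ring
      exact_mod_cast h6
    have h7 : (u : ℝ) / Q < (u / Q : ℕ) + 1 := by
      rw [div_lt_iff₀ hQR]
      exact h5
    linarith
  have h5 : ((NI u v Q b).card : ℝ) ≤ ((v / Q : ℕ) : ℝ) - ((u / Q : ℕ) : ℝ) + 1 := by
    have h6 : u / Q ≤ v / Q := Nat.div_le_div_right huv
    have h7 : ((NI u v Q b).card : ℝ) ≤ ((v / Q - u / Q + 1 : ℕ) : ℝ) := by exact_mod_cast hcard
    rw [Nat.cast_add, Nat.cast_sub h6, Nat.cast_one] at h7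
    exact h7
  have h6 : (2 : ℝ) ≤ XI u v Q := by
    unfold XI
    rw [le_div_iff₀ hQR]
    exact_mod_cast h2
  have h7 : XI u v Q = (v : ℝ) / Q - u / Q := by
    unfold XI
    rw [Nat.cast_sub huv, sub_div]
  linarith

/-- the modulus is small -/
theorem QQ_small {x : ℕ} (hl : 900 ≤ Real.log x) : 2 * QQ x ≤ x - x / 2 := by
  have hx0 : (0 : ℝ) < x := by
    by_contra hcon
    have h3 : (x : ℝ) = 0 := le_antisymm (not_lt.1 hcon) (Nat.cast_nonneg _)
    rw [h3, Real.log_zero] at hl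
    linarith
  set l := Real.log x with hldef
  have h1 : QQ x ≤ 4 ^ ⌊l / 20⌋₊ := primorial_le_four_pow _
  have h2 : (QQ x : ℝ) ≤ Real.exp (l / 10) := by
    have h3 : (QQ x : ℝ) ≤ (4 : ℝ) ^ ⌊l / 20⌋₊ := by exact_mod_cast h1
    refine h3.trans ?_
    have h4 : (4 : ℝ) ≤ Real.exp 2 := by
      have := Real.exp_one_gt_d9
      have h5 : Real.exp 2 = Real.exp 1 * Real.exp 1 := by rw [← Real.exp_add]; norm_num
      rw [h5]
      nlinarith only [this]
    calc (4 : ℝ) ^ ⌊l / 20⌋₊ ≤ Real.exp 2 ^ ⌊l / 20⌋₊ :=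
          pow_le_pow_left₀ (by norm_num) h4 _
      _ = Real.exp (⌊l / 20⌋₊ * 2) := by rw [← Real.exp_nat_mul]
      _ ≤ Real.exp (l / 10) := by
          apply Real.exp_le_exp.2
          have := Nat.floor_le (show 0 ≤ l / 20 by linarith)
          linarith
  have h5 : (x : ℝ) = Real.exp (l / 10) * Real.exp (9 * l / 10) := by
    rw [← Real.exp_add, show l / 10 + 9 * l / 10 = l by ring, hldef, Real.exp_log hx0]
  have h6 : (4 : ℝ) ≤ Real.exp (9 * l / 10) := by
    have := Real.add_one_le_exp (9 * l / 10)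
    linarith
  have h7 : 4 * (QQ x : ℝ) ≤ x := by
    rw [h5]
    nlinarith only [h2, h6, Real.exp_pos (l / 10)]
  have h8 : 4 * QQ x ≤ x := by exact_mod_cast h7
  omega

theorem mo (h : StmtKB) : StmtMO := by
  obtain ⟨c, hc, hKB⟩ := h
  obtain ⟨CM, hCM, hMU⟩ := mu_unif
  intro η hη
  obtain ⟨E0, hKB⟩ := hKB (η / 4) (by positivity)
  set B : ℝ := 8 / η with hB
  have hB0 : 0 < B := by positivity
  set D : ℝ := max 3 (CM * B / c) with hD
  have hD3 : 3 ≤ D := le_max_left _ _
  have hDc : CM * B ≤ D * c := by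
    have := le_max_right 3 (CM * B / c)
    rw [div_le_iff₀ hc] at this
    exact this
  refine ⟨8 * D, by linarith, ?_⟩
  -- conditions on `x`
  have hlog : Tendsto (fun x : ℕ => Real.log (x : ℝ)) atTop atTop :=
    Real.tendsto_log_atTop.comp tendsto_natCast_atTop_atTop
  have hll : Tendsto (fun x : ℕ => Real.log (Real.log (x : ℝ))) atTop atTop :=
    Real.tendsto_log_atTop.comp hlog
  have hlll : Tendsto (fun x : ℕ => Real.log (Real.log (Real.log (x : ℝ)))) atTop atTop :=
    Real.tendsto_log_atTop.comp hll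
  have e1 : ∀ᶠ u : ℝ in atTop, u ≤ Real.exp (u / 8) := by
    have h1 : ∀ᶠ u : ℝ in atTop, u ^ 1 * Real.exp (-u) < 1 / 8 :=
      (Real.tendsto_pow_mul_exp_neg_atTop_nhds_zero 1).eventually (gt_mem_nhds (by positivity))
    have h2 : Tendsto (fun u : ℝ => u / 8) atTop atTop :=
      tendsto_id.atTop_div_const (by norm_num)
    filter_upwards [h2.eventually h1] with u hu
    rw [pow_one, Real.exp_neg, ← div_eq_mul_inv, div_lt_iff₀ (Real.exp_pos _)] at hu
    linarith only [hu]
  have e2 : ∀ᶠ u : ℝ in atTop, (E0 : ℝ) ≤ u ^ 3 :=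
    (tendsto_pow_atTop (by norm_num : (3 : ℕ) ≠ 0)).eventually_ge_atTop _
  have e3 : ∀ᶠ u : ℝ in atTop, 3 ≤ Real.exp (u / 8) := by
    filter_upwards [eventually_ge_atTop (16 : ℝ)] with u hu
    have := Real.add_one_le_exp (u / 8)
    linarith only [hu, this]
  obtain ⟨x0, hx0⟩ := eventually_atTop.1 ((hlog.eventually_ge_atTop 900).and
    ((hlll.eventually_ge_atTop 1).and ((hll.eventually e1).and ((hll.eventually e2).and
      (hll.eventually e3)))))
  refine ⟨x0, ?_⟩
  intro x hx lam hlam1 hlam2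
  obtain ⟨hl, h3, hw, hE0, hw3⟩ := hx0 x hx
  set l := Real.log x with hldef
  obtain ⟨E, hE⟩ : ∃ E, E = ⌈Real.exp (D * lam)⌉₊ := ⟨_, rfl⟩
  obtain ⟨H, hH⟩ : ∃ H, H = ⌈lam * l⌉₊ := ⟨_, rfl⟩
  obtain ⟨T, hT⟩ : ∃ T, T = 2 * ⌈Real.exp ((E : ℝ) ^ 2)⌉₊ := ⟨_, rfl⟩
  obtain ⟨s1, s2, s3, s4, s5, s6, s7, s8, s9⟩ := sizes hD3 hl h3 hw3 hw hlam1 hlam2 hE hH hT
  have hEE0 : E0 ≤ E := by
    have : (E0 : ℝ) ≤ E := hE0.trans s3
    exact_mod_cast this
  have hxpos : (0 : ℝ) < x := by
    by_contra hcon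
    have h3 : (x : ℝ) = 0 := le_antisymm (not_lt.1 hcon) (Nat.cast_nonneg _)
    rw [hldef, h3, Real.log_zero] at hl
    linarith only [hl]
  have hHpos : 0 < H := by
    have : (0 : ℝ) < H := by linarith only [hl, s5]
    exact_mod_cast this
  have hceil : 1 ≤ ⌈Real.exp ((E : ℝ) ^ 2)⌉₊ := Nat.one_le_ceil_iff.2 (Real.exp_pos _)
  have hTpos : 0 < T := by omega
  have hTHpos : 0 < T * H := Nat.mul_pos hTpos hHpos
  have hTHR : (0 : ℝ) < ((T * H : ℕ) : ℝ) := by exact_mod_cast hTHpos
  have hpow : (T * H) ^ E ≤ x := by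
    have h1 : Real.log (((T * H : ℕ) : ℝ) ^ E) ≤ Real.log x := by
      rw [Real.log_pow]
      exact s8
    have h2 := (Real.log_le_log_iff (by positivity) hxpos).1 h1
    exact_mod_cast h2
  obtain ⟨z, hzz0, hzx, hxz⟩ := root_exists E (T * H) x s2 hpow
  have hexpT : Real.exp ((E : ℝ) ^ 2) ≤ T := by
    have h1 := Nat.le_ceil (Real.exp ((E : ℝ) ^ 2))
    rw [hT]
    push_cast
    have := Real.exp_pos ((E : ℝ) ^ 2)
    linarith only [h1, this]
  have hER : (1 : ℝ) ≤ E := by exact_mod_cast s2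
  have hexpz : Real.exp E ≤ z := by
    calc Real.exp E ≤ Real.exp ((E : ℝ) ^ 2) := Real.exp_le_exp.2 (by nlinarith only [hER])
      _ ≤ T := hexpT
      _ ≤ ((T * H : ℕ) : ℝ) := by exact_mod_cast Nat.le_mul_of_pos_right T hHpos
      _ ≤ z := by exact_mod_cast hzz0
  have hSr : Sr E z x H := ⟨hexpz, hzx, hxz, s5, s7, s3⟩
  have hHz : H ≤ z := le_trans (Nat.le_mul_of_pos_left H hTpos) hzz0
  have hH2 : 2 ≤ H := by
    have : (2 : ℝ) ≤ H := by linarith only [hl, s5]
    exact_mod_cast this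
  have hmu := hMU E z x H lam s1 s2 hl hxz hHz hH2 s6 s7
  set o : ℝ := om H z with ho
  have ho0 : 0 ≤ o := om_nonneg _ _
  have hlogE : 0 < Real.log E := by
    have : 0 < D * lam := by positivity
    linarith only [s4, this]
  set R : ℝ := c * (E * Real.log E) with hR
  have hR0 : 0 < R := by
    have : (0 : ℝ) < E := by linarith only [hER]
    positivity
  have hbad := bad_classes Pool.Agent.Helper37.PP.hb (x := x) (H := H) (T := T) (o := o)
    (R := R) (B := B) ho0 hR0
    (by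
      refine hmu.trans ?_
      rw [le_div_iff₀ hB0]
      have hlam0 : 0 ≤ lam := by linarith only [hlam1, h3]
      calc CM * lam * E * B = CM * B * (lam * E) := by ring
        _ ≤ D * c * (lam * E) := mul_le_mul_of_nonneg_right hDc (by positivity)
        _ = c * (E * (D * lam)) := by ring
        _ ≤ R := by
            apply mul_le_mul_of_nonneg_left _ hc.le
            exact mul_le_mul_of_nonneg_left s4 (by positivity)) hB0
  -- the classes
  set Jb : ℕ → Finset ℕ := fun b => (range T).filter (fun j =>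
      ((Pw x H b j).card : ℝ) * o ≤ R) with hJb
  set Bb := (range (QQ x)).filter (fun b => 2 * (Jb b).card < T) with hBb
  set S := (Ioc (x / 2) x).filter (fun n => ∀ t : ℕ, (t : ℝ) ≤ Real.exp (Real.exp (8 * D * lam)) →
    ∃ p, p.Prime ∧ n + t < p ∧ p ≤ n + t + ⌈lam * l⌉₊) with hS
  have hQ : 0 < QQ x := QQ_pos x
  have hQR : (0 : ℝ) < QQ x := by exact_mod_cast hQ
  have hX : 0 ≤ XI (x / 2) x (QQ x) := XX_nonneg x
  have hNb : ∀ b, ((NI (x / 2) x (QQ x) b).card : ℝ) ≤ 2 * XI (x / 2) x (QQ x) := fun b =>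
    card_NI (x / 2) x (QQ x) b hQ (Nat.div_le_self _ _) (QQ_small hl)
  have hfib : (S.card : ℝ) = ∑ b ∈ range (QQ x), ((S.filter (fun n => n % QQ x = b)).card : ℝ) := by
    have h1 : S.card = ∑ b ∈ range (QQ x), (S.filter (fun n => n % QQ x = b)).card :=
      Finset.card_eq_sum_card_fiberwise (fun n _ => by
        simp only [Finset.coe_range, Set.mem_Iio]
        exact Nat.mod_lt _ hQ)
    exact_mod_cast h1
  have hsub : ∀ b, S.filter (fun n => n % QQ x = b) ⊆ NI (x / 2) x (QQ x) b := by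
    intro b n hn
    rw [mem_filter, hS, mem_filter] at hn
    exact mem_filter.2 ⟨hn.1.1, hn.2⟩
  have hfl : ⌊Real.log x / 20⌋₊ ≤ x / 2 := by
    have h1 : ⌊Real.log x / 20⌋₊ ≤ x / 4 := by
      apply Nat.floor_le_of_le
      have h2 : Real.log x ≤ x := (Real.log_le_sub_one_of_pos hxpos).trans (by linarith)
      have h3 : (x : ℝ) ≤ 4 * ((x / 4 : ℕ) : ℝ) + 3 := by
        have : x ≤ 4 * (x / 4) + 3 := by omega
        exact_mod_cast this
      have h5 : (900 : ℝ) ≤ x := hl.trans h2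
      linarith only [hl, h2, h3]
    omega
  have hgood : ∀ b ∈ range (QQ x), b ∉ Bb →
      ((S.filter (fun n => n % QQ x = b)).card : ℝ) ≤ η / 4 * XI (x / 2) x (QQ x) := by
    intro b hb hbb
    have hJ2 : T ≤ 2 * (Jb b).card := by
      by_contra hcon
      push Not at hcon
      exact hbb (mem_filter.2 ⟨hb, hcon⟩)
    have hmemJ : ∀ j ∈ Jb b, j < T ∧ ((Pw x H b j).card : ℝ) * om H z ≤ R := by
      intro j hj
      rw [hJb, mem_filter, mem_range] at hj
      exact hj
    have hinj : Function.Injective (fun j : ℕ => j * H) := fun a a' haa =>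
      Nat.eq_of_mul_eq_mul_right hHpos haa
    set J : Finset ℕ := (Jb b).image (fun j => j * H) with hJ
    have hJcard : J.card = (Jb b).card := Finset.card_image_of_injective _ hinj
    have hdiv : ∀ j : ℕ, j * H / H = j := fun j => Nat.mul_div_cancel j hHpos
    have key := hKB E z x H hEE0 hSr (QQ x) b dvd_rfl (mem_range.1 hb) J
      (fun t => Pw x H b (t / H)) (by
        rw [hJcard]
        have h1 : ⌈Real.exp ((E : ℝ) ^ 2)⌉₊ ≤ (Jb b).card := by omega
        have h2 : ((⌈Real.exp ((E : ℝ) ^ 2)⌉₊ : ℕ) : ℝ) ≤ ((Jb b).card : ℝ) := by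
          exact_mod_cast h1
        exact (Nat.le_ceil _).trans h2)
      (by
        intro t ht
        obtain ⟨j, hj, rfl⟩ := mem_image.1 ht
        have h1 := (hmemJ j hj).1
        have h2 : (j + 1) * H ≤ T * H := Nat.mul_le_mul_right H h1
        have h4 : (j + 1) * H = j * H + H := by ring
        omega)
      (by
        intro t ht t' ht' htt
        obtain ⟨j, hj, rfl⟩ := mem_image.1 ht
        obtain ⟨k, hk, rfl⟩ := mem_image.1 ht'
        have h1 : j < k := lt_of_mul_lt_mul_right htt (Nat.zero_le _)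
        have h2 : (j + 1) * H ≤ k * H := Nat.mul_le_mul_right H h1
        have h4 : (j + 1) * H = j * H + H := by ring
        omega)
      (by
        intro t ht h hh
        obtain ⟨j, hj, rfl⟩ := mem_image.1 ht
        rw [hdiv] at hh
        have h1 := mem_Ioc.1 (mem_filter.1 hh).1
        have h4 : (j + 1) * H = j * H + H := by ring
        rw [mem_Icc]
        omega)
      (by
        intro t ht
        obtain ⟨j, hj, rfl⟩ := mem_image.1 ht
        rw [hdiv]
        exact (hmemJ j hj).2)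
    refine le_trans ?_ key
    have hss : S.filter (fun n => n % QQ x = b) ⊆ (NI (x / 2) x (QQ x) b).filter
        (fun n => ∀ t ∈ J, ∃ h ∈ Pw x H b (t / H), (n + h).Prime) := by
      intro n hn
      refine mem_filter.2 ⟨hsub b hn, ?_⟩
      rw [mem_filter, hS, mem_filter] at hn
      obtain ⟨⟨hn1, hn2⟩, hn3⟩ := hn
      intro t ht
      obtain ⟨j, hj, rfl⟩ := mem_image.1 ht
      rw [hdiv]
      have hjT := (hmemJ j hj).1
      have h1 : ((j * H : ℕ) : ℝ) ≤ Real.exp (Real.exp (8 * D * lam)) := by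
        refine le_trans ?_ s9
        exact_mod_cast Nat.mul_le_mul_right H hjT.le
      obtain ⟨p, hp, hp1, hp2⟩ := hn2 (j * H) h1
      rw [← hH] at hp2
      exact point_exists (mem_Ioc.1 hn1).1 hfl hn3 hp hp1 hp2
    exact_mod_cast Finset.card_le_card hss
  have hsum : (S.card : ℝ) ≤ QQ x * (η / 4 * XI (x / 2) x (QQ x)) +
      Bb.card * (2 * XI (x / 2) x (QQ x)) := by
    rw [hfib, ← Finset.sum_filter_add_sum_filter_not (range (QQ x)) (fun b => b ∈ Bb)]
    have h1 : ∑ b ∈ (range (QQ x)).filter (fun b => b ∈ Bb),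
        ((S.filter (fun n => n % QQ x = b)).card : ℝ) ≤
        Bb.card * (2 * XI (x / 2) x (QQ x)) := by
      have h2 : (range (QQ x)).filter (fun b => b ∈ Bb) = Bb := by
        ext b
        rw [mem_filter]
        constructor
        · exact fun h => h.2
        · exact fun h => ⟨(mem_filter.1 h).1, h⟩
      rw [h2, ← nsmul_eq_mul, ← Finset.sum_const]
      apply Finset.sum_le_sum
      intro b hb
      have h3 : ((S.filter (fun n => n % QQ x = b)).card : ℝ) ≤
          ((NI (x / 2) x (QQ x) b).card : ℝ) := by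
        exact_mod_cast Finset.card_le_card (hsub b)
      exact h3.trans (hNb b)
    have h5 : ∑ b ∈ (range (QQ x)).filter (fun b => ¬ b ∈ Bb),
        ((S.filter (fun n => n % QQ x = b)).card : ℝ) ≤
        QQ x * (η / 4 * XI (x / 2) x (QQ x)) := by
      calc ∑ b ∈ (range (QQ x)).filter (fun b => ¬ b ∈ Bb),
            ((S.filter (fun n => n % QQ x = b)).card : ℝ)
          ≤ ∑ b ∈ (range (QQ x)).filter (fun b => ¬ b ∈ Bb), (η / 4 * XI (x / 2) x (QQ x)) := by
            apply Finset.sum_le_sum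
            intro b hb
            exact hgood b (mem_filter.1 hb).1 (mem_filter.1 hb).2
        _ ≤ ∑ b ∈ range (QQ x), (η / 4 * XI (x / 2) x (QQ x)) := by
            apply Finset.sum_le_sum_of_subset_of_nonneg (Finset.filter_subset _ _)
            intro b _ _
            positivity
        _ = _ := by rw [Finset.sum_const, Finset.card_range, nsmul_eq_mul]
    linarith only [h1, h5]
  have hhalf : ((x - x / 2 : ℕ) : ℝ) ≤ x := by exact_mod_cast Nat.sub_le _ _
  have hQX : (QQ x : ℝ) * XI (x / 2) x (QQ x) = ((x - x / 2 : ℕ) : ℝ) := QQ_mul_XX x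
  have h7 : (Bb.card : ℝ) * (2 * XI (x / 2) x (QQ x)) ≤ η / 2 * x := by
    calc (Bb.card : ℝ) * (2 * XI (x / 2) x (QQ x)) ≤
          2 * QQ x / B * (2 * XI (x / 2) x (QQ x)) :=
          mul_le_mul_of_nonneg_right hbad (by positivity)
      _ = η / 2 * (QQ x * XI (x / 2) x (QQ x)) := by
          rw [hB]
          field_simp
          ring
      _ ≤ η / 2 * x := by
          rw [hQX]
          exact mul_le_mul_of_nonneg_left hhalf (by positivity)
  have h8 : QQ x * (η / 4 * XI (x / 2) x (QQ x)) ≤ η / 4 * x := by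
    calc QQ x * (η / 4 * XI (x / 2) x (QQ x)) = η / 4 * (QQ x * XI (x / 2) x (QQ x)) := by ring
      _ ≤ η / 4 * x := by
          rw [hQX]
          exact mul_le_mul_of_nonneg_left hhalf (by positivity)
  have hx0' : (0 : ℝ) ≤ η * x := by positivity
  linarith only [hsum, h7, h8]

end Pool.Agent.Helper11.GM
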